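import Mathlib

/-!
# Hat guessing: the forest direction

For an acyclic graph `H`, the class of `H`-free graphs has bounded hat guessing number.
-/

namespace Pool.Agent.Helper9_HatForest

open SimpleGraph

/-- A finite nonempty acyclic graph has a vertex with at most one neighbour. -/
lemma exists_leaf {W : Type} [Fintype W] [Nonempty W] (H : SimpleGraph W) (hH : H.IsAcyclic) :
    ∃ w : W, ∀ x y : W, H.Adj w x → H.Adj w y → x = y := by
  classical
  by_contra hcon
  push Not at hcon
  have key : ∀ n : ℕ, ∃ (u v : W) (p : H.Walk u v), p.IsPath ∧ p.length = n := by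
    intro n
    induction n with
    | zero => exact ⟨Classical.arbitrary W, _, Walk.nil, by simp, rfl⟩
    | succ n ih =>
      obtain ⟨u, v, p, hp, hl⟩ := ih
      obtain ⟨x, y, hx, hy, hxy⟩ := hcon u
      have : ∃ w, H.Adj u w ∧ w ∉ p.support := by
        by_contra h
        push Not at h
        have h1 := hH.eq_snd_of_adj_start hp hx (h x hx)
        have h2 := hH.eq_snd_of_adj_start hp hy (h y hy)
        exact hxy (h1.trans h2.symm)
      obtain ⟨w, hw, hws⟩ := this
      exact ⟨w, v, Walk.cons hw.symm p, by simp [hp, hws], by simp [hl]⟩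
  obtain ⟨u, v, p, hp, hl⟩ := key (Fintype.card W)
  have := hp.length_lt
  omega

/-- Embedding of forests into a graph with a long chain of nested sets with large degrees. -/
lemma embed {V : Type} (G : SimpleGraph V) (D : ℕ) (S : ℕ → Set V)
    (hanti : ∀ i, S (i + 1) ⊆ S i)
    (hS : ∀ i, ∀ v ∈ S (i + 1), ∀ F : Finset V, F.card < D →
      ∃ u ∈ S i, G.Adj v u ∧ u ∉ F) :
    ∀ (n : ℕ) (W : Type) [Fintype W] (H : SimpleGraph W), Fintype.card W = n → n ≤ D →
      H.IsAcyclic → ∀ m, (S (m + n)).Nonempty →
      ∃ φ : W → V, Function.Injective φ ∧ (∀ x, φ x ∈ S m) ∧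
        ∀ x y, H.Adj x y → G.Adj (φ x) (φ y) := by
  classical
  have hanti' : ∀ i j, S (i + j) ⊆ S i := by
    intro i j
    induction j with
    | zero => exact subset_rfl
    | succ j ih => exact (hanti (i + j)).trans ih
  intro n
  induction n with
  | zero =>
    intro W _ H hc _ _ m _
    have : IsEmpty W := Fintype.card_eq_zero_iff.mp hc
    exact ⟨isEmptyElim, fun x => isEmptyElim x, fun x => isEmptyElim x, fun x => isEmptyElim x⟩
  | succ n ih =>
    intro W _ H hc hD hH m hm
    have : Nonempty W := Fintype.card_pos_iff.mp (by omega)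
    obtain ⟨w, hw⟩ := exists_leaf H hH
    let W' := {x : W // x ≠ w}
    have hc' : Fintype.card W' = n := by
      have : Fintype.card W' = Fintype.card W - 1 := by
        simp only [W']
        rw [Fintype.card_subtype_compl (fun x => x = w)]
        simp
      omega
    have hH' : (H.comap (Subtype.val : W' → W)).IsAcyclic :=
      hH.comap ⟨Subtype.val, fun h => h⟩ Subtype.val_injective
    obtain ⟨φ, hφi, hφS, hφa⟩ := ih W' (H.comap (Subtype.val : W' → W)) hc' (by omega) hH' (m + 1)
      (by rw [show m + 1 + n = m + (n + 1) by ring]; exact hm)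
    let F : Finset V := Finset.univ.image φ
    have hF : F.card < D := by
      have : F.card ≤ Fintype.card W' := Finset.card_image_le
      omega
    have hu : ∃ u ∈ S m, u ∉ F ∧ ∀ x : W', H.Adj w x.1 → G.Adj u (φ x) := by
      by_cases hx : ∃ x : W, H.Adj w x
      · obtain ⟨x, hx⟩ := hx
        have hxw : x ≠ w := fun h => H.loopless.irrefl w (h ▸ hx)
        obtain ⟨u, huS, hadj, huF⟩ := hS m (φ ⟨x, hxw⟩) (hφS _) F hF
        refine ⟨u, huS, huF, fun y hy => ?_⟩
        have : y = ⟨x, hxw⟩ := Subtype.ext (hw _ _ hy hx)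
        rw [this]
        exact hadj.symm
      · obtain ⟨v, hv⟩ := hm
        have hv' : v ∈ S (m + 1) := by
          have h := hanti' (m + 1) n
          rw [show m + 1 + n = m + (n + 1) by ring] at h
          exact h hv
        obtain ⟨u, huS, _, huF⟩ := hS m v hv' F hF
        exact ⟨u, huS, huF, fun y hy => (hx ⟨_, hy⟩).elim⟩
    obtain ⟨u, huS, huF, hua⟩ := hu
    refine ⟨fun x => if h : x = w then u else φ ⟨x, h⟩, ?_, ?_, ?_⟩
    · intro x y hxy
      by_cases hx : x = w <;> by_cases hy : y = w
      · rw [hx, hy]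
      · simp only [hx, hy, dite_true, dite_false] at hxy
        exact (huF (hxy ▸ Finset.mem_image_of_mem φ (Finset.mem_univ _))).elim
      · simp only [hx, hy, dite_true, dite_false] at hxy
        exact (huF (hxy ▸ Finset.mem_image_of_mem φ (Finset.mem_univ _))).elim
      · simp only [hx, hy, dite_false] at hxy
        exact congrArg Subtype.val (hφi hxy)
    · intro x
      by_cases hx : x = w
      · simp only [hx, dite_true]; exact huS
      · simp only [hx, dite_false]; exact hanti m (hφS _)
    · intro x y hxy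
      by_cases hx : x = w <;> by_cases hy : y = w
      · exact (H.loopless.irrefl w (by rw [hx, hy] at hxy; exact hxy)).elim
      · simp only [hx, hy, dite_true, dite_false]
        exact hua ⟨y, hy⟩ (hx ▸ hxy)
      · simp only [hx, hy, dite_true, dite_false]
        exact (hua ⟨x, hx⟩ (hy ▸ hxy.symm)).symm
      · simp only [hx, hy, dite_false]
        exact hφa ⟨x, hx⟩ ⟨y, hy⟩ hxy

/-- Palette sizes. -/
def pal (D : ℕ) : ℕ → ℕ
  | 0 => 1
  | n + 1 => (pal D n) ^ D + 1

lemma one_le_pal (D n : ℕ) : 1 ≤ pal D n := by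
  cases n <;> simp [pal]

lemma pal_le_succ {D : ℕ} (hD : 1 ≤ D) (n : ℕ) : pal D n ≤ pal D (n + 1) := by
  have h1 := one_le_pal D n
  have : pal D n ≤ (pal D n) ^ D := Nat.le_self_pow (by omega) _
  show pal D n ≤ (pal D n) ^ D + 1
  omega

lemma pal_mono {D : ℕ} (hD : 1 ≤ D) : Monotone (pal D) :=
  monotone_nat_of_le_succ (pal_le_succ hD)

/-- The adversary defeats every strategy on a graph with a good layering. -/
lemma adversary {V : Type} (G : SimpleGraph V) (D K q : ℕ) (hD1 : 1 ≤ D) (ℓ : V → ℕ)
    (hne : ∀ v u, G.Adj v u → ℓ u ≠ ℓ v)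
    (hD : ∀ v, ∃ F : Finset V, F.card ≤ D ∧ ∀ u, G.Adj v u → ℓ v < ℓ u → u ∈ F)
    (hK : ∀ v, ℓ v < K)
    (hq : pal D K ≤ q) (f : V → (V → Fin q) → Fin q)
    (hf : ∀ (v : V) (c c' : V → Fin q), (∀ u : V, G.Adj v u → c u = c' u) → f v c = f v c') :
    ∃ c : V → Fin q, ∀ v, f v c ≠ c v := by
  classical
  have hq1 : 1 ≤ q := (one_le_pal D K).trans hq
  have : Nonempty (Fin q) := ⟨⟨0, hq1⟩⟩
  have key : ∀ j, j ≤ K → ∃ c : V → Fin q, ∀ c' : V → Fin q, (∀ v, ℓ v < j → c' v = c v) →
      (∀ v, j ≤ ℓ v → (c' v : ℕ) < pal D (K - ℓ v)) → ∀ v, ℓ v < j → f v c' ≠ c' v := by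
    intro j
    induction j with
    | zero => intro _; exact ⟨fun _ => Classical.arbitrary _, fun _ _ _ v hv => absurd hv (by omega)⟩
    | succ j ih =>
      intro hj
      obtain ⟨c, hc⟩ := ih (by omega)
      have hA : pal D (K - (j + 1)) ≤ q := (pal_mono hD1 (by omega)).trans hq
      have hA' : pal D (K - j) ≤ q := (pal_mono hD1 (by omega)).trans hq
      have hstep : pal D (K - j) = (pal D (K - (j + 1))) ^ D + 1 := by
        rw [show K - j = (K - (j + 1)) + 1 by omega]; rfl
      set A := pal D (K - (j + 1)) with hAdef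
      have hA1 : 1 ≤ A := one_le_pal _ _
      have hpick : ∀ v : V, ℓ v = j → ∃ x : Fin q, (x : ℕ) < pal D (K - j) ∧
          ∀ c' : V → Fin q, (∀ u, ℓ u < j → c' u = c u) →
          (∀ u, j ≤ ℓ u → (c' u : ℕ) < pal D (K - ℓ u)) → f v c' ≠ x := by
        intro v hv
        obtain ⟨F, hFc, hF⟩ := hD v
        let F' := F.filter (fun u => j < ℓ u)
        let cg : (F' → Fin A) → V → Fin q := fun g u =>
          if h : u ∈ F' then Fin.castLE hA (g ⟨u, h⟩) else c u
        let T : Finset (Fin q) := Finset.univ.image (fun g : F' → Fin A => f v (cg g))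
        let P : Finset (Fin q) := Finset.univ.image (Fin.castLE hA')
        have hT : T.card ≤ A ^ D := by
          calc T.card ≤ Fintype.card (F' → Fin A) := Finset.card_image_le
            _ = A ^ F'.card := by simp
            _ ≤ A ^ D := Nat.pow_le_pow_right hA1 ((Finset.card_filter_le _ _).trans hFc)
        have hP : P.card = A ^ D + 1 := by
          rw [Finset.card_image_of_injective _ (Fin.castLE_injective hA'), Finset.card_univ,
            Fintype.card_fin, hstep]
        obtain ⟨x, hxP, hxT⟩ := Finset.exists_mem_notMem_of_card_lt_card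
          (show T.card < P.card by omega)
        refine ⟨x, ?_, ?_⟩
        · obtain ⟨y, _, rfl⟩ := Finset.mem_image.mp hxP
          simp
        · intro c' h1 h2 hx
          apply hxT
          rw [← hx]
          refine Finset.mem_image.mpr ⟨fun u => ⟨c' u.1, ?_⟩, Finset.mem_univ _, ?_⟩
          · have hu : j < ℓ u.1 := (Finset.mem_filter.mp u.2).2
            exact lt_of_lt_of_le (h2 u.1 hu.le) (pal_mono hD1 (by omega))
          · apply hf
            intro u hadj
            have hne' := hne v u hadj
            rw [hv] at hne'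
            by_cases hlt : j < ℓ u
            · have huF : u ∈ F' := Finset.mem_filter.mpr ⟨hF u hadj (by rw [hv]; exact hlt), hlt⟩
              simp only [cg, huF, dite_true]
              ext; simp
            · have huF : u ∉ F' := fun h => hlt (Finset.mem_filter.mp h).2
              simp only [cg, huF, dite_false]
              exact (h1 u (by omega)).symm
      choose! x hx1 hx2 using hpick
      refine ⟨fun v => if ℓ v = j then x v else c v, ?_⟩
      intro c' h1 h2 v hv
      have h1' : ∀ u, ℓ u < j → c' u = c u := by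
        intro u hu
        have := h1 u (by omega)
        beta_reduce at this
        rw [this, if_neg (by omega)]
      have h2' : ∀ u, j ≤ ℓ u → (c' u : ℕ) < pal D (K - ℓ u) := by
        intro u hu
        rcases Nat.lt_or_ge j (ℓ u) with h | h
        · exact h2 u h
        · have hju : ℓ u = j := le_antisymm h hu
          have := h1 u (by omega)
          beta_reduce at this
          rw [this, if_pos hju, hju]
          exact hx1 u hju
      rcases Nat.lt_or_ge (ℓ v) j with h | h
      · exact hc c' h1' h2' v h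
      · have hjv : ℓ v = j := by omega
        have h3 := hx2 v hjv c' h1' h2'
        have h4 : c' v = x v := by
          have := h1 v hv
          beta_reduce at this
          rw [this, if_pos hjv]
        rw [h4]
        exact h3
  obtain ⟨c, hc⟩ := key K le_rfl
  exact ⟨c, fun v => hc c (fun _ _ => rfl) (fun u hu => absurd (hK u) (by omega)) v (hK v)⟩

/-- Greedy colouring. -/
lemma greedy {V : Type} [Fintype V] (R : V → V → Prop) (hsymm : ∀ u v, R u v → R v u)
    (hirr : ∀ v, ¬ R v v) (D : ℕ)
    (hD : ∀ v, ∃ F : Finset V, F.card < D ∧ ∀ u, R v u → u ∈ F) :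
    ∃ col : V → ℕ, (∀ v, col v < D) ∧ ∀ u v, R u v → col u ≠ col v := by
  classical
  have key : ∀ s : Finset V, ∃ col : V → ℕ, (∀ v, col v < D) ∧
      ∀ u ∈ s, ∀ v ∈ s, R u v → col u ≠ col v := by
    intro s
    induction s using Finset.induction_on with
    | empty =>
      refine ⟨fun _ => 0, fun v => ?_, by simp⟩
      obtain ⟨F, hF, _⟩ := hD v
      show 0 < D
      omega
    | insert w s hws ih =>
      obtain ⟨col, hcol, hc⟩ := ih
      obtain ⟨F, hF, hFw⟩ := hD w
      have hcard : (F.image col).card < (Finset.range D).card := by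
        rw [Finset.card_range]
        exact lt_of_le_of_lt Finset.card_image_le hF
      obtain ⟨k, hk, hkF⟩ := Finset.exists_mem_notMem_of_card_lt_card hcard
      refine ⟨Function.update col w k, ?_, ?_⟩
      · intro v
        by_cases hv : v = w
        · subst hv; simpa using hk
        · rw [Function.update_of_ne hv]; exact hcol v
      · intro u hu v hv huv
        by_cases h1 : u = w <;> by_cases h2 : v = w
        · subst h1; subst h2; exact (hirr _ huv).elim
        · subst h1
          rw [Function.update_self, Function.update_of_ne h2]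
          intro h
          exact hkF (h ▸ Finset.mem_image_of_mem col (hFw v huv))
        · subst h2
          rw [Function.update_self, Function.update_of_ne h1]
          intro h
          exact hkF (h ▸ Finset.mem_image_of_mem col (hFw u (hsymm _ _ huv)))
        · rw [Function.update_of_ne h1, Function.update_of_ne h2]
          exact hc u ((Finset.mem_insert.mp hu).resolve_left h1) v
            ((Finset.mem_insert.mp hv).resolve_left h2) huv
  obtain ⟨col, h1, h2⟩ := key Finset.univ
  exact ⟨col, h1, fun u v => h2 u (Finset.mem_univ _) v (Finset.mem_univ _)⟩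

/-- The nested sets. -/
def lev {V : Type} (G : SimpleGraph V) (D : ℕ) : ℕ → Set V
  | 0 => Set.univ
  | i + 1 => {v | v ∈ lev G D i ∧ D ≤ Set.ncard {u | u ∈ lev G D i ∧ G.Adj v u}}

theorem forest_bounded (W : Type) [Fintype W] (H : SimpleGraph W) (hH : H.IsAcyclic) :
    ∃ B : ℕ, ∀ (V : Type) [Fintype V] (G : SimpleGraph V), ¬ H.IsContained G → ∀ q : ℕ,
      (∃ f : V → (V → Fin q) → Fin q,
        (∀ (v : V) (c c' : V → Fin q), (∀ u : V, G.Adj v u → c u = c' u) → f v c = f v c') ∧
        ∀ c : V → Fin q, ∃ v : V, f v c = c v) → q ≤ B := by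
  classical
  set n := Fintype.card W with hn
  set D := n + 1 with hDdef
  refine ⟨pal D (n * D), ?_⟩
  intro V _ G hG q ⟨f, hf, hwin⟩
  by_contra hq
  push Not at hq
  let S := lev G D
  have hanti : ∀ i, S (i + 1) ⊆ S i := fun i v hv => hv.1
  have hanti' : ∀ i j, i ≤ j → S j ⊆ S i := by
    intro i j hij
    induction j, hij using Nat.le_induction with
    | base => exact subset_rfl
    | succ j _ ih => exact (hanti j).trans ih
  have hS : ∀ i, ∀ v ∈ S (i + 1), ∀ F : Finset V, F.card < D → ∃ u ∈ S i, G.Adj v u ∧ u ∉ F := by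
    intro i v hv F hF
    have h2 : D ≤ Set.ncard {u | u ∈ S i ∧ G.Adj v u} := hv.2
    by_contra hcon
    push Not at hcon
    have hsub : {u | u ∈ S i ∧ G.Adj v u} ⊆ (F : Set V) := fun u hu => hcon u hu.1 hu.2
    have := Set.ncard_le_ncard hsub (Finset.finite_toSet F)
    rw [Set.ncard_coe_finset] at this
    omega
  have hempty : S n = ∅ := by
    by_contra hne
    obtain ⟨φ, hi, _, ha⟩ := embed G D S hanti hS n W H rfl (by omega) hH 0
      (by rw [zero_add]; exact Set.nonempty_iff_ne_empty.mpr hne)
    exact hG ⟨⟨⟨φ, fun {a b} h => ha a b h⟩, hi⟩⟩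
  have hlev : ∀ v, ∃ i, i < n ∧ v ∈ S i ∧ v ∉ S (i + 1) := by
    intro v
    have hex : ∃ i, v ∉ S i := ⟨n, by rw [hempty]; simp⟩
    have h0 : Nat.find hex ≠ 0 := by
      intro h
      have := Nat.find_spec hex
      rw [h] at this
      exact this (Set.mem_univ v)
    obtain ⟨i, hi⟩ := Nat.exists_eq_succ_of_ne_zero h0
    refine ⟨i, ?_, ?_, ?_⟩
    · have : Nat.find hex ≤ n := Nat.find_min' hex (by rw [hempty]; simp)
      omega
    · by_contra h
      have := Nat.find_min' hex h
      omega
    · have := Nat.find_spec hex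
      rw [hi] at this
      exact this
  choose lv hlv1 hlv2 hlv3 using hlev
  have hsmall : ∀ v, Set.ncard {u | u ∈ S (lv v) ∧ G.Adj v u} < D := by
    intro v
    by_contra h
    push Not at h
    exact hlv3 v ⟨hlv2 v, h⟩
  have hfin : ∀ v, ∃ F : Finset V, F.card < D ∧ ∀ u, G.Adj v u → u ∈ S (lv v) → u ∈ F := by
    intro v
    refine ⟨(Set.toFinite {u | u ∈ S (lv v) ∧ G.Adj v u}).toFinset, ?_, ?_⟩
    · rw [← Set.ncard_eq_toFinset_card _ (Set.toFinite _)]
      exact hsmall v
    · intro u h1 h2
      simp only [Set.Finite.mem_toFinset, Set.mem_ofPred_eq]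
      exact ⟨h2, h1⟩
  obtain ⟨col, hcol1, hcol2⟩ := greedy (fun u v => G.Adj u v ∧ lv u = lv v)
    (fun u v h => ⟨h.1.symm, h.2.symm⟩) (fun v h => G.loopless.irrefl v h.1) D (by
      intro v
      obtain ⟨F, hF1, hF2⟩ := hfin v
      exact ⟨F, hF1, fun u hu => hF2 u hu.1 (hu.2 ▸ hlv2 u)⟩)
  have hmod : ∀ u v, lv u * D + col u = lv v * D + col v → lv u = lv v ∧ col u = col v := by
    intro u v h
    have hDpos : 0 < D := by omega
    have e1 : (lv u * D + col u) / D = lv u := by
      rw [mul_comm, Nat.mul_add_div hDpos, Nat.div_eq_of_lt (hcol1 u), add_zero]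
    have e2 : (lv v * D + col v) / D = lv v := by
      rw [mul_comm, Nat.mul_add_div hDpos, Nat.div_eq_of_lt (hcol1 v), add_zero]
    have e3 : lv u = lv v := by rw [← e1, h, e2]
    refine ⟨e3, ?_⟩
    rw [e3] at h
    omega
  have hlt : ∀ u v, lv u * D + col u < lv v * D + col v → lv u ≤ lv v := by
    intro u v h
    by_contra hcon
    push Not at hcon
    have : (lv v + 1) * D ≤ lv u * D := Nat.mul_le_mul_right D hcon
    have h2 := hcol1 v
    nlinarith
  obtain ⟨c, hc⟩ := adversary G D (n * D) q (by omega) (fun v => lv v * D + col v)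
    (by
      intro v u hadj h
      obtain ⟨h1, h2⟩ := hmod u v h
      exact hcol2 u v ⟨hadj.symm, h1⟩ h2)
    (by
      intro v
      obtain ⟨F, hF1, hF2⟩ := hfin v
      exact ⟨F, hF1.le, fun u hadj hl => hF2 u hadj (hanti' _ _ (hlt v u hl) (hlv2 u))⟩)
    (by
      intro v
      have h1 := hlv1 v
      have h2 := hcol1 v
      show lv v * D + col v < n * D
      have : (lv v + 1) * D ≤ n * D := Nat.mul_le_mul_right D h1
      nlinarith)
    hq.le f hf
  obtain ⟨v, hv⟩ := hwin c
  exact hc v hv

end Pool.Agent.Helper9_HatForest
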